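import Mathlib
import Pool.Agent.GapScaling.Defs
import Pool.Agent.GapScaling.Proof

namespace Pool.Agent.Results.MP_a53ef7_an.Dichotomy

open MeasureTheory Set Pool.Agent.GapScaling

/-- **Main theorem.** Let `N` be a compact metric space and `0 ≤ p < 1`. In every dimension
`m ≥ 2` the scaling inequality with the factor `(δ / ε) ^ (m - p)` holds. In dimension `m = 1` it
fails as soon as `N` contains two distinct points joined by a path. -/
theorem result (N : Type*) [MetricSpace N] [CompactSpace N] [MeasurableSpace N] [BorelSpace N]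
    (p : ℝ) (hp0 : 0 ≤ p) (hp1 : p < 1) :
    (∀ m : ℕ, 2 ≤ m → ScalingHolds m p N) ∧
      ((∃ a b : N, a ≠ b ∧ Joined a b) → ¬ ScalingHolds 1 p N) := by
  constructor
  · intro m hm
    exact positive hm p hp0 hp1
  · rintro ⟨a, b, hab, hj⟩
    exact negative a b hab hj p hp0 hp1

end Pool.Agent.Results.MP_a53ef7_an.Dichotomy
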